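import Pool.Agent.P8H65.ET.Fun1
import Pool.Agent.P8H10.ET.StmF

/-!
# Project ET, package FUN3: independence from exponential functions, with `EH` and `EP`
-/

set_option autoImplicit false

open Filter Topology

namespace Pool.Agent.P8H37.ET

open Pool.Agent.P8H10.ET Pool.Agent.P8H65.ET

theorem off_add {z τ : ℂ} (h : Off z τ) (n : ℕ) : Off z (τ + n) := by
  intro m k hz
  refine h (m + k * n) k ?_
  rw [hz]
  push_cast
  ring

/-- **FUN3.** -/
theorem fun3 : S_TRM → S_MOD → S_FUN4 → S_FUN3 := by
  intro hT hM h4 z hz N A c hc h i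
  obtain ⟨hT1, hT2, -, -⟩ := hT
  have hEP : ∀ (n : ℕ) (τ : ℂ), EP z (τ + n) = EP z τ := by
    intro n
    induction n with
    | zero => intro τ; simp
    | succ n ih =>
      intro τ
      push_cast
      rw [← add_assoc, hT1, ih]
  have hEH : ∀ (n : ℕ) (τ : ℂ), 0 < τ.im → EH (τ + n) = EH τ := by
    intro n
    induction n with
    | zero => intro τ _; simp
    | succ n ih =>
      intro τ hτ
      push_cast
      rw [← add_assoc, hT2 _ (by simpa using hτ), ih τ hτ]
  -- the polynomials in the first variable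
  have main : ∀ τ : ℂ, 0 < τ.im → Off z τ → ∀ i, Polynomial.map
      (MvPolynomial.eval ![EG 4 τ, EG 6 τ, EH τ, EP z τ]) (MvPolynomial.finSuccEquiv ℂ 4 (A i)) = 0 := by
    intro τ hτ hoff
    have ev : ∀ (i : Fin N) (T : ℂ), (Polynomial.map (MvPolynomial.eval ![EG 4 τ, EG 6 τ, EH τ, EP z τ])
        (MvPolynomial.finSuccEquiv ℂ 4 (A i))).eval T =
        MvPolynomial.aeval ![T, EG 4 τ, EG 6 τ, EH τ, EP z τ] (A i) := by
      intro i T
      rw [← MvPolynomial.eval_eq_eval_mv_eval']
      rfl
    have key := exp_poly N (fun i => Polynomial.taylor τ (Polynomial.map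
      (MvPolynomial.eval ![EG 4 τ, EG 6 τ, EH τ, EP z τ]) (MvPolynomial.finSuccEquiv ℂ 4 (A i))) *
        Polynomial.C (Complex.exp (c i * τ))) (fun i => Complex.exp (c i)) (fun i => Complex.exp_ne_zero _)
      (fun i j hij => by
        by_contra hne
        exact hc i j hne hij) (fun n => by
        rw [← h (τ + n) (by simpa using hτ) (off_add hoff n)]
        refine Finset.sum_congr rfl (fun i _ => ?_)
        rw [Polynomial.eval_mul, Polynomial.taylor_eval, Polynomial.eval_C, ev, mul_assoc, mul_add,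
          Complex.exp_add, mul_comm (c i) (n : ℂ), Complex.exp_nat_mul, EG_shift hM 4 n τ hτ.ne',
          EG_shift hM 6 n τ hτ.ne', hEP, hEH n τ hτ, add_comm τ (n : ℂ)])
    intro i
    have h1 := key i
    rcases mul_eq_zero.1 h1 with h2 | h2
    · exact Polynomial.taylor_injective τ (by rw [h2, map_zero])
    · exact absurd (Polynomial.C_eq_zero.1 h2) (Complex.exp_ne_zero _)
  have h0 : MvPolynomial.finSuccEquiv ℂ 4 (A i) = 0 := by
    ext1 k
    rw [Polynomial.coeff_zero]
    refine h4 z hz _ (fun τ hτ hoff => ?_)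
    have h1 := congrArg (fun p => Polynomial.coeff p k) (main τ hτ hoff i)
    simp only [Polynomial.coeff_map, Polynomial.coeff_zero] at h1
    exact h1
  exact (MvPolynomial.finSuccEquiv ℂ 4).injective (by rw [h0, map_zero])

end Pool.Agent.P8H37.ET
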